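import Mathlib

set_option autoImplicit false

open scoped BigOperators ZeroAtInfty

namespace Pool.Agent.Results.MP_b7f2f1_an.AlmostNotSemi

/-! ## The notions in the statement -/

section Defs

variable {𝕜 X : Type*} [RCLike 𝕜] [NormedAddCommGroup X] [NormedSpace 𝕜 X]

/-- `(e n)` is a Markushevich basis of `X` with biorthogonal functionals `(e' n)`:
`e' k (e n) = δ_{kn}`, the linear span of `(e n)` is dense and the `e' n` separate points. -/
structure IsMarkushevichBasis (e : ℕ → X) (e' : ℕ → X →L[𝕜] 𝕜) : Prop where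
  biorthogonal : ∀ k n, e' k (e n) = if k = n then 1 else 0
  dense_span : Dense (Submodule.span 𝕜 (Set.range e) : Set X)
  separates : ∀ x y, (∀ n, e' n x = e' n y) → x = y

/-- The coordinate projection `P_A x = ∑_{n ∈ A} e' n (x) e n`. -/
def coordProj (e : ℕ → X) (e' : ℕ → X →L[𝕜] 𝕜) (A : Finset ℕ) (x : X) : X :=
  ∑ n ∈ A, e' n x • e n

/-- `A` is a greedy set of `x`: `|e' n x| ≥ |e' k x|` for all `n ∈ A`, `k ∉ A`. -/
def IsGreedySet (e' : ℕ → X →L[𝕜] 𝕜) (x : X) (A : Finset ℕ) : Prop :=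
  ∀ n ∈ A, ∀ k ∉ A, ‖e' k x‖ ≤ ‖e' n x‖

/-- `σ_m(x)`: the error of the best `m`-term approximation. -/
noncomputable def bestTerm (𝕜 : Type*) {X : Type*} [RCLike 𝕜] [NormedAddCommGroup X]
    [NormedSpace 𝕜 X] (e : ℕ → X) (m : ℕ) (x : X) : ℝ :=
  sInf {r : ℝ | ∃ (B : Finset ℕ) (a : ℕ → 𝕜), B.card ≤ m ∧ r = ‖x - ∑ n ∈ B, a n • e n‖}

/-- `σ̃_m(x)`: the error of the best `m`-term approximation by projections. -/
noncomputable def bestProj (e : ℕ → X) (e' : ℕ → X →L[𝕜] 𝕜) (m : ℕ) (x : X) : ℝ :=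
  sInf {r : ℝ | ∃ B : Finset ℕ, B.card ≤ m ∧ r = ‖x - coordProj e e' B x‖}

/-- `C`-almost-greedy. -/
def AlmostGreedy (C : ℝ) (e : ℕ → X) (e' : ℕ → X →L[𝕜] 𝕜) : Prop :=
  ∀ (x : X) (A : Finset ℕ), IsGreedySet e' x A →
    ‖x - coordProj e e' A x‖ ≤ C * bestProj e e' A.card x

/-- `C`-semi-greedy. -/
def SemiGreedy (C : ℝ) (e : ℕ → X) (e' : ℕ → X →L[𝕜] 𝕜) : Prop :=
  ∀ (x : X) (A : Finset ℕ), IsGreedySet e' x A →
    sInf {r : ℝ | ∃ a : ℕ → 𝕜, r = ‖x - ∑ n ∈ A, a n • e n‖} ≤ C * bestTerm 𝕜 e A.card x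

end Defs

/-! ## The norm on sequences -/

section Norm

variable {𝕜 : Type*} [RCLike 𝕜]

/-- the correction term -/
noncomputable def b (j : ℕ) (f : ℕ → 𝕜) : ℝ :=
  if j = 0 then ‖f 1‖ else if j = 1 then ‖f 0‖ else ‖f 0 - f 1‖

/-- the seminorms whose supremum is the new norm -/
noncomputable def φ (p : ℕ × ℕ) (f : ℕ → 𝕜) : ℝ :=
  if p.1 = p.2 then ‖f p.1‖ + b p.1 f / 6 else 2 / 3 * (‖f p.1‖ + ‖f p.2‖)

/-- the new norm -/
noncomputable def N (f : ℕ → 𝕜) : ℝ := ⨆ p : ℕ × ℕ, φ p f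

lemma b_nonneg (j : ℕ) (f : ℕ → 𝕜) : 0 ≤ b j f := by
  unfold b; split_ifs <;> positivity

lemma φ_nonneg (p : ℕ × ℕ) (f : ℕ → 𝕜) : 0 ≤ φ p f := by
  have := b_nonneg p.1 f
  unfold φ; split_ifs <;> positivity

lemma b_le (j : ℕ) (f : ℕ → 𝕜) {M : ℝ} (hM : ∀ n, ‖f n‖ ≤ M) : b j f ≤ 2 * M := by
  have h0 := hM 0
  have h1 := hM 1
  have hs := norm_sub_le (f 0) (f 1)
  have := norm_nonneg (f 0)
  unfold b; split_ifs <;> linarith

lemma φ_le (p : ℕ × ℕ) (f : ℕ → 𝕜) {M : ℝ} (hM : ∀ n, ‖f n‖ ≤ M) : φ p f ≤ 4 / 3 * M := by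
  have h1 := b_le p.1 f hM
  have h2 := hM p.1
  have h3 := hM p.2
  unfold φ; split_ifs <;> linarith

lemma bdd (f : ℕ → 𝕜) {M : ℝ} (hM : ∀ n, ‖f n‖ ≤ M) : BddAbove (Set.range fun p => φ p f) :=
  ⟨4 / 3 * M, by rintro _ ⟨p, rfl⟩; exact φ_le p f hM⟩

lemma N_le (f : ℕ → 𝕜) {M : ℝ} (hM : ∀ n, ‖f n‖ ≤ M) : N f ≤ 4 / 3 * M :=
  ciSup_le fun p => φ_le p f hM

lemma N_nonneg (f : ℕ → 𝕜) : 0 ≤ N f := Real.iSup_nonneg fun p => φ_nonneg p f

lemma φ_le_N {f : ℕ → 𝕜} {M : ℝ} (hM : ∀ n, ‖f n‖ ≤ M) (p : ℕ × ℕ) : φ p f ≤ N f :=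
  le_ciSup (bdd f hM) p

lemma N_pair {f : ℕ → 𝕜} {M : ℝ} (hM : ∀ n, ‖f n‖ ≤ M) {i j : ℕ} (h : i ≠ j) :
    2 / 3 * (‖f i‖ + ‖f j‖) ≤ N f := by
  have := φ_le_N hM (i, j)
  simpa [φ, h] using this

lemma N_single {f : ℕ → 𝕜} {M : ℝ} (hM : ∀ n, ‖f n‖ ≤ M) (j : ℕ) :
    ‖f j‖ + b j f / 6 ≤ N f := by
  have := φ_le_N hM (j, j)
  simpa [φ] using this

lemma N_zero' {f : ℕ → 𝕜} {M : ℝ} (hM : ∀ n, ‖f n‖ ≤ M) : ‖f 0‖ + ‖f 1‖ / 6 ≤ N f := by
  simpa [b] using N_single hM 0

lemma N_one' {f : ℕ → 𝕜} {M : ℝ} (hM : ∀ n, ‖f n‖ ≤ M) : ‖f 1‖ + ‖f 0‖ / 6 ≤ N f := by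
  simpa [b] using N_single hM 1

lemma N_two' {f : ℕ → 𝕜} {M : ℝ} (hM : ∀ n, ‖f n‖ ≤ M) {j : ℕ} (h0 : j ≠ 0) (h1 : j ≠ 1) :
    ‖f j‖ + ‖f 0 - f 1‖ / 6 ≤ N f := by
  simpa [b, h0, h1] using N_single hM j

lemma norm_le_N {f : ℕ → 𝕜} {M : ℝ} (hM : ∀ n, ‖f n‖ ≤ M) (j : ℕ) : ‖f j‖ ≤ N f := by
  have h1 := N_single hM j
  have h2 := b_nonneg j f
  linarith

/-- upper bounds for the new norm -/
lemma N_le_iff {f : ℕ → 𝕜} {C : ℝ}
    (h1 : ∀ i j, i ≠ j → 2 / 3 * (‖f i‖ + ‖f j‖) ≤ C)
    (h2 : ‖f 0‖ + ‖f 1‖ / 6 ≤ C) (h3 : ‖f 1‖ + ‖f 0‖ / 6 ≤ C)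
    (h4 : ∀ j, j ≠ 0 → j ≠ 1 → ‖f j‖ + ‖f 0 - f 1‖ / 6 ≤ C) : N f ≤ C := by
  refine ciSup_le ?_
  rintro ⟨i, j⟩
  by_cases hij : i = j
  · subst hij
    by_cases hi0 : i = 0
    · subst hi0; simpa [φ, b] using h2
    · by_cases hi1 : i = 1
      · subst hi1; simpa [φ, b] using h3
      · simpa [φ, b, hi0, hi1] using h4 i hi0 hi1
  · simpa [φ, hij] using h1 i j hij

lemma φ_add (p : ℕ × ℕ) (f g : ℕ → 𝕜) : φ p (f + g) ≤ φ p f + φ p g := by
  have h1 := norm_add_le (f p.1) (g p.1)
  have h2 := norm_add_le (f p.2) (g p.2)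
  have h3 := norm_add_le (f 0) (g 0)
  have h4 := norm_add_le (f 1) (g 1)
  have h5 : ‖f 0 + g 0 - (f 1 + g 1)‖ ≤ ‖f 0 - f 1‖ + ‖g 0 - g 1‖ := by
    have := norm_add_le (f 0 - f 1) (g 0 - g 1)
    rwa [show f 0 - f 1 + (g 0 - g 1) = f 0 + g 0 - (f 1 + g 1) by ring] at this
  simp only [φ, b, Pi.add_apply]
  split_ifs <;> linarith

lemma φ_smul (p : ℕ × ℕ) (c : 𝕜) (f : ℕ → 𝕜) : φ p (c • f) = ‖c‖ * φ p f := by
  simp only [φ, b, Pi.smul_apply, smul_eq_mul, ← mul_sub, norm_mul]
  split_ifs <;> ring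

lemma N_add {f g : ℕ → 𝕜} {M M' : ℝ} (hf : ∀ n, ‖f n‖ ≤ M) (hg : ∀ n, ‖g n‖ ≤ M') :
    N (f + g) ≤ N f + N g :=
  ciSup_le fun p => (φ_add p f g).trans (add_le_add (φ_le_N hf p) (φ_le_N hg p))

lemma N_smul (c : 𝕜) (f : ℕ → 𝕜) : N (c • f) = ‖c‖ * N f := by
  unfold N
  rw [Real.mul_iSup_of_nonneg (norm_nonneg c)]
  exact iSup_congr fun p => φ_smul p c f

/-- first monotonicity lemma: killing a largest coordinate does not increase the norm -/
lemma N_kill {y z : ℕ → 𝕜} {M : ℝ} (hz : ∀ n, ‖z n‖ ≤ M) {d : ℕ} (hyd : y d = 0)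
    (hyz : ∀ n, n ≠ d → y n = z n) (hd : ∀ n, ‖z n‖ ≤ ‖z d‖) : N y ≤ N z := by
  have hle : ∀ n, ‖y n‖ ≤ ‖z n‖ := by
    intro n
    by_cases h : n = d
    · subst h; rw [hyd, norm_zero]; exact norm_nonneg _
    · rw [hyz n h]
  have a0 := N_zero' hz
  have a1 := N_one' hz
  apply N_le_iff
  · intro i j hij
    have h1 := N_pair hz hij
    have h2 := hle i
    have h3 := hle j
    linarith
  · have h2 := hle 0
    have h3 := hle 1
    linarith
  · have h2 := hle 0
    have h3 := hle 1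
    linarith
  · intro j hj0 hj1
    by_cases hd0 : d = 0
    · subst hd0
      rw [hyd, hyz 1 (by norm_num), hyz j hj0, zero_sub, norm_neg]
      have := hd j
      linarith
    · by_cases hd1 : d = 1
      · subst hd1
        rw [hyd, hyz 0 (by norm_num), hyz j hj1, sub_zero]
        have := hd j
        linarith
      · rw [hyz 0 (Ne.symm hd0), hyz 1 (Ne.symm hd1)]
        have := N_two' hz hj0 hj1
        have := hle j
        linarith

/-- second monotonicity lemma: moving a coordinate -/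
lemma N_move {y z : ℕ → 𝕜} {M : ℝ} (hz : ∀ n, ‖z n‖ ≤ M) {d e : ℕ} (hde : d ≠ e)
    (hyd : y d = 0) (hze : z e = 0)
    (hyz : ∀ n, n ≠ d → n ≠ e → y n = z n) (hd : ∀ n, ‖y n‖ ≤ ‖z d‖) : N y ≤ N z := by
  have a0 := N_zero' hz
  have a1 := N_one' hz
  have hzd := norm_le_N hz d
  have hle : ∀ n, n ≠ e → ‖y n‖ ≤ ‖z n‖ := by
    intro n hne
    by_cases h : n = d
    · subst h; rw [hyd, norm_zero]; exact norm_nonneg _
    · rw [hyz n h hne]
  -- pairs
  have hpair : ∀ i j, i ≠ j → 2 / 3 * (‖y i‖ + ‖y j‖) ≤ N z := by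
    have key : ∀ j, j ≠ e → 2 / 3 * (‖y e‖ + ‖y j‖) ≤ N z := by
      intro j hj
      by_cases hjd : j = d
      · subst hjd
        rw [hyd, norm_zero]
        have := hd e
        have := norm_nonneg (y e)
        linarith
      · rw [hyz j hjd hj]
        have h1 := N_pair hz (Ne.symm hjd)
        have h2 := hd e
        linarith
    intro i j hij
    by_cases hi : i = e
    · subst hi; exact key j (Ne.symm hij)
    · by_cases hj : j = e
      · subst hj; rw [add_comm]; exact key i hij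
      · have h1 := N_pair hz hij
        have h2 := hle i hi
        have h3 := hle j hj
        linarith
  -- a crude bound
  have crude : ∀ j, j ≠ d → j ≠ e → 2 / 3 * (‖z d‖ + ‖y j‖) ≤ N z := by
    intro j h1 h2
    rw [hyz j h1 h2]
    exact N_pair hz (Ne.symm h1)
  apply N_le_iff hpair
  · -- functional 0
    by_cases he0 : e = 0
    · subst he0
      by_cases hd1 : d = 1
      · subst hd1
        rw [hyd, norm_zero]
        have := hd 0
        linarith
      · have h := N_two' hz hde hd1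
        rw [hze, zero_sub, norm_neg] at h
        rw [hyz 1 (Ne.symm hd1) (by norm_num)]
        have := hd 0
        linarith
    · by_cases he1 : e = 1
      · subst he1
        by_cases hd0 : d = 0
        · subst hd0
          rw [hyd, norm_zero]
          have := hd 1
          have := norm_nonneg (y 1)
          linarith
        · have h := crude 0 (Ne.symm hd0) (by norm_num)
          have h1 := hd 1
          have h2 := hd 0
          linarith
      · have h0 := hle 0 (Ne.symm he0)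
        have h1 := hle 1 (Ne.symm he1)
        linarith
  · -- functional 1
    by_cases he1 : e = 1
    · subst he1
      by_cases hd0 : d = 0
      · subst hd0
        rw [hyd, norm_zero]
        have := hd 1
        linarith
      · have h := N_two' hz hd0 hde
        rw [hze, sub_zero] at h
        rw [hyz 0 (Ne.symm hd0) (by norm_num)]
        have := hd 1
        linarith
    · by_cases he0 : e = 0
      · subst he0
        by_cases hd1 : d = 1
        · subst hd1
          rw [hyd, norm_zero]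
          have := hd 0
          have := norm_nonneg (y 0)
          linarith
        · have h := crude 1 (Ne.symm hd1) (by norm_num)
          have h1 := hd 1
          have h2 := hd 0
          linarith
      · have h0 := hle 0 (Ne.symm he0)
        have h1 := hle 1 (Ne.symm he1)
        linarith
  · -- functional j ≥ 2
    intro j hj0 hj1
    have tri := norm_sub_le (y 0) (y 1)
    have hd' := hd 0
    have hd'' := hd 1
    have hdj := hd j
    by_cases hjd : j = d
    · subst hjd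
      rw [hyd, norm_zero]
      linarith [norm_nonneg (z j)]
    · by_cases he : e = 0 ∨ e = 1
      · have hje : j ≠ e := by rcases he with h | h <;> rw [h] <;> assumption
        have h := crude j hjd hje
        linarith
      · push Not at he
        obtain ⟨he0, he1⟩ := he
        -- now `e ≥ 2`
        by_cases hd0 : d = 0
        · subst hd0
          rw [hyd, zero_sub, norm_neg, hyz 1 (by norm_num) (Ne.symm he1)]
          linarith
        · by_cases hd1 : d = 1
          · subst hd1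
            rw [hyd, sub_zero, hyz 0 (by norm_num) (Ne.symm he0)]
            linarith
          · rw [hyz 0 (Ne.symm hd0) (Ne.symm he0), hyz 1 (Ne.symm hd1) (Ne.symm he1)]
            by_cases hje : j = e
            · subst hje
              have := N_two' hz hd0 hd1
              linarith
            · rw [hyz j hjd hje]
              exact N_two' hz hj0 hj1

/-- the almost-greedy inequality at the level of sequences -/
lemma N_greedy (f : ℕ → 𝕜) {M : ℝ} (hM : ∀ n, ‖f n‖ ≤ M) (A B : Finset ℕ)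
    (hA : ∀ n ∈ A, ∀ k ∉ A, ‖f k‖ ≤ ‖f n‖) (hcard : B.card ≤ A.card) :
    N (fun n => if n ∈ A then 0 else f n) ≤ N (fun n => if n ∈ B then 0 else f n) := by
  have hz : ∀ n, ‖(if n ∈ B then 0 else f n : 𝕜)‖ ≤ M := by
    intro n
    split_ifs
    · rw [norm_zero]; exact (norm_nonneg _).trans (hM n)
    · exact hM n
  rcases Nat.lt_or_ge 1 (A \ B).card with h2 | h1
  · -- at least two elements
    obtain ⟨d, hd, d', hd', hne⟩ := Finset.one_lt_card.1 h2
    rw [Finset.mem_sdiff] at hd hd'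
    have hp := N_pair hz hne
    simp only [hd.2, hd'.2, if_false] at hp
    have key : ∀ n, ‖(if n ∈ A then 0 else f n : 𝕜)‖ ≤ (‖f d‖ + ‖f d'‖) / 2 := by
      intro n
      split_ifs with hn
      · rw [norm_zero]; positivity
      · have h1 := hA d hd.1 n hn
        have h2 := hA d' hd'.1 n hn
        linarith
    have := N_le _ key
    linarith
  · rcases Nat.lt_or_ge 0 (A \ B).card with h0 | h0
    · have h1' : (A \ B).card = 1 := le_antisymm h1 h0
      obtain ⟨d, hd⟩ := Finset.card_eq_one.1 h1'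
      have hdm : d ∈ A \ B := by rw [hd]; exact Finset.mem_singleton_self d
      rw [Finset.mem_sdiff] at hdm
      have hBA : (B \ A).card ≤ 1 := by
        rw [← h1']; exact Finset.card_sdiff_le_card_sdiff_iff.2 hcard
      have hother : ∀ n, n ≠ d → n ∈ A → n ∈ B := by
        intro n hn hnA
        by_contra hnB
        have : n ∈ A \ B := Finset.mem_sdiff.2 ⟨hnA, hnB⟩
        rw [hd, Finset.mem_singleton] at this
        exact hn this
      rcases Nat.lt_or_ge 0 (B \ A).card with hb | hb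
      · obtain ⟨e, he⟩ := Finset.card_eq_one.1 (le_antisymm hBA hb)
        have hem : e ∈ B \ A := by rw [he]; exact Finset.mem_singleton_self e
        rw [Finset.mem_sdiff] at hem
        have hde : d ≠ e := by rintro rfl; exact hdm.2 hem.1
        have hother' : ∀ n, n ≠ e → n ∈ B → n ∈ A := by
          intro n hn hnB
          by_contra hnA
          have : n ∈ B \ A := Finset.mem_sdiff.2 ⟨hnB, hnA⟩
          rw [he, Finset.mem_singleton] at this
          exact hn this
        refine N_move hz hde ?_ ?_ ?_ ?_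
        · simp [hdm.1]
        · simp [hem.1]
        · intro n hnd hne
          have : n ∈ A ↔ n ∈ B := ⟨hother n hnd, hother' n hne⟩
          simp only [this]
        · intro n
          simp only [hdm.2, if_false]
          split_ifs with hn
          · rw [norm_zero]; exact norm_nonneg _
          · exact hA d hdm.1 n hn
      · have hempty : B \ A = ∅ := Finset.card_eq_zero.1 (Nat.le_zero.1 hb)
        have hsub : B ⊆ A := Finset.sdiff_eq_empty_iff_subset.1 hempty
        refine N_kill hz (d := d) ?_ ?_ ?_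
        · simp [hdm.1]
        · intro n hnd
          have : n ∈ A ↔ n ∈ B := ⟨hother n hnd, fun h => hsub h⟩
          simp only [this]
        · intro n
          simp only [hdm.2, if_false]
          split_ifs with hn
          · rw [norm_zero]; exact norm_nonneg _
          · by_cases hnA : n ∈ A
            · by_cases hnd : n = d
              · rw [hnd]
              · exact absurd (hother n hnd hnA) hn
            · exact hA d hdm.1 n hnA
    · have hempty : A \ B = ∅ := Finset.card_eq_zero.1 (Nat.le_zero.1 h0)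
      have hsub : A ⊆ B := Finset.sdiff_eq_empty_iff_subset.1 hempty
      have : A = B := Finset.eq_of_subset_of_card_le hsub hcard
      rw [this]

end Norm

/-! ## The space -/

section Space

variable (𝕜 : Type) [RCLike 𝕜]

/-- `c₀`, to be equipped with the new norm -/
def X : Type := C₀(ℕ, 𝕜)

noncomputable instance : AddCommGroup (X 𝕜) := inferInstanceAs (AddCommGroup C₀(ℕ, 𝕜))

noncomputable instance : Module 𝕜 (X 𝕜) := inferInstanceAs (Module 𝕜 C₀(ℕ, 𝕜))

/-- the identity map onto `c₀` -/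
noncomputable def toC : X 𝕜 ≃ₗ[𝕜] C₀(ℕ, 𝕜) := LinearEquiv.refl 𝕜 C₀(ℕ, 𝕜)

noncomputable instance : Norm (X 𝕜) := ⟨fun f => N (fun n => toC 𝕜 f n)⟩

variable {𝕜}

lemma norm_def (f : X 𝕜) : ‖f‖ = N (fun n => toC 𝕜 f n) := rfl

lemma coe_le (f : C₀(ℕ, 𝕜)) (n : ℕ) : ‖f n‖ ≤ ‖f‖ := by
  rw [← ZeroAtInftyContinuousMap.norm_toBCF_eq_norm]
  exact f.toBCF.norm_coe_le_norm n

lemma core : NormedSpace.Core 𝕜 (X 𝕜) where
  norm_nonneg f := N_nonneg _
  norm_smul c f := by
    rw [norm_def, norm_def, ← N_smul]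
    congr 1
  norm_triangle f g := by
    rw [norm_def, norm_def, norm_def]
    exact N_add (coe_le (toC 𝕜 f)) (coe_le (toC 𝕜 g))
  norm_eq_zero_iff f := by
    constructor
    · intro h
      apply (toC 𝕜).injective
      ext n
      rw [norm_def] at h
      have := norm_le_N (coe_le (toC 𝕜 f)) n
      rw [h] at this
      simpa using this
    · rintro rfl
      rw [norm_def]
      have h1 := N_nonneg (fun n => toC 𝕜 0 n)
      have h2 := N_le (fun n => toC 𝕜 0 n) (M := 0) (by intro n; simp)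
      linarith

noncomputable instance : NormedAddCommGroup (X 𝕜) := NormedAddCommGroup.ofCore core

noncomputable instance : NormedSpace 𝕜 (X 𝕜) := NormedSpace.ofCore core

/-- the new norm is equivalent to the norm of `c₀` -/
noncomputable def T : X 𝕜 ≃L[𝕜] C₀(ℕ, 𝕜) :=
  LinearEquiv.toContinuousLinearEquivOfBounds (toC 𝕜) 1 (4 / 3)
    (by
      intro f
      rw [one_mul, norm_def, ← ZeroAtInftyContinuousMap.norm_toBCF_eq_norm,
        BoundedContinuousFunction.norm_le (N_nonneg _)]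
      exact norm_le_N (coe_le (toC 𝕜 f)))
    (by
      intro f
      rw [norm_def]
      exact N_le _ (coe_le f))

lemma T_apply (f : X 𝕜) : T f = toC 𝕜 f := rfl

instance : CompleteSpace (X 𝕜) :=
  (completeSpace_congr (e := T.toEquiv) (T (𝕜 := 𝕜)).isUniformEmbedding).2 inferInstance

/-- the unit vectors of `c₀` -/
noncomputable def unit (n : ℕ) : C₀(ℕ, 𝕜) where
  toFun := fun k => if k = n then 1 else 0
  continuous_toFun := continuous_of_discreteTopology
  zero_at_infty' := by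
    rw [Filter.cocompact_eq_cofinite]
    apply tendsto_nhds_of_eventually_eq
    rw [Filter.eventually_cofinite]
    refine (Set.finite_singleton n).subset ?_
    intro k hk
    by_contra h
    exact hk (if_neg h)

lemma unit_apply (n k : ℕ) : (unit n : C₀(ℕ, 𝕜)) k = if k = n then 1 else 0 := rfl

/-- the basis -/
noncomputable def e (n : ℕ) : X 𝕜 := (toC 𝕜).symm (unit n)

/-- the biorthogonal functionals -/
noncomputable def e' (n : ℕ) : X 𝕜 →L[𝕜] 𝕜 :=
  LinearMap.mkContinuous
    { toFun := fun f => toC 𝕜 f n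
      map_add' := fun f g => rfl
      map_smul' := fun c f => rfl } 1
    (by
      intro f
      rw [one_mul]
      exact norm_le_N (coe_le (toC 𝕜 f)) n)

lemma e'_apply (n : ℕ) (f : X 𝕜) : e' n f = toC 𝕜 f n := rfl

lemma toC_e (n k : ℕ) : toC 𝕜 (e n) k = if k = n then 1 else 0 := rfl

lemma toC_sum (B : Finset ℕ) (a : ℕ → 𝕜) (k : ℕ) :
    toC 𝕜 (∑ n ∈ B, a n • e n) k = if k ∈ B then a k else 0 := by
  classical
  rw [← e'_apply, map_sum]
  simp only [map_smul, e'_apply, toC_e, smul_eq_mul, mul_ite, mul_one, mul_zero]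
  rw [Finset.sum_ite_eq]

lemma toC_sub_sum (f : X 𝕜) (B : Finset ℕ) (a : ℕ → 𝕜) (k : ℕ) :
    toC 𝕜 (f - ∑ n ∈ B, a n • e n) k = if k ∈ B then toC 𝕜 f k - a k else toC 𝕜 f k := by
  have : toC 𝕜 (f - ∑ n ∈ B, a n • e n) k = toC 𝕜 f k - toC 𝕜 (∑ n ∈ B, a n • e n) k := rfl
  rw [this, toC_sum]
  split_ifs <;> simp

lemma toC_sub_proj (f : X 𝕜) (B : Finset ℕ) (k : ℕ) :
    toC 𝕜 (f - coordProj e e' B f) k = if k ∈ B then 0 else toC 𝕜 f k := by
  unfold coordProj
  rw [toC_sub_sum f B (fun n => e' n f)]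
  split_ifs <;> simp [e'_apply]

lemma norm_sub_proj (f : X 𝕜) (B : Finset ℕ) :
    ‖f - coordProj e e' B f‖ = N (fun n => if n ∈ B then 0 else toC 𝕜 f n) := by
  rw [norm_def]
  congr 1
  funext k
  exact toC_sub_proj f B k

lemma isMarkushevichBasis : IsMarkushevichBasis (e : ℕ → X 𝕜) e' where
  biorthogonal k n := toC_e n k
  dense_span := by
    rw [Metric.dense_iff]
    intro f r hr
    have h0 := (toC 𝕜 f).zero_at_infty'
    rw [Filter.cocompact_eq_cofinite, Metric.tendsto_nhds] at h0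
    have h1 := h0 (r / 2) (by positivity)
    rw [Filter.eventually_cofinite] at h1
    set A : Finset ℕ := h1.toFinset with hA
    refine ⟨coordProj e e' A f, ?_, ?_⟩
    · rw [Metric.mem_ball, dist_comm, dist_eq_norm, norm_sub_proj]
      have : N (fun n => if n ∈ A then 0 else toC 𝕜 f n) ≤ 4 / 3 * (r / 2) := by
        apply N_le
        intro n
        split_ifs with hn
        · rw [norm_zero]; positivity
        · rw [hA, Set.Finite.mem_toFinset, Set.mem_ofPred_eq, not_not, dist_zero_right] at hn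
          exact hn.le
      linarith
    · exact Submodule.sum_mem _ fun n _ =>
        Submodule.smul_mem _ _ (Submodule.subset_span ⟨n, rfl⟩)
  separates f g h := by
    apply (toC 𝕜).injective
    ext n
    exact h n

lemma norm_e (n : ℕ) : ‖(e n : X 𝕜)‖ = 1 := by
  rw [norm_def]
  have hb : ∀ k, ‖(if k = n then 1 else 0 : 𝕜)‖ ≤ 1 := by
    intro k; split_ifs <;> simp
  apply le_antisymm
  · change N (fun k => (if k = n then 1 else 0 : 𝕜)) ≤ 1
    apply N_le_iff
    · intro i j hij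
      by_cases hi : i = n
      · have hj : j ≠ n := fun h => hij (hi.trans h.symm)
        rw [if_pos hi, if_neg hj, norm_zero, norm_one]; norm_num
      · rw [if_neg hi, norm_zero]
        have := hb j
        linarith
    · by_cases h0 : 0 = n
      · have h1 : ¬ (1 = n) := by omega
        rw [if_pos h0, if_neg h1, norm_zero, norm_one]; norm_num
      · rw [if_neg h0, norm_zero]
        have := hb 1
        linarith
    · by_cases h0 : 1 = n
      · have h1 : ¬ (0 = n) := by omega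
        rw [if_pos h0, if_neg h1, norm_zero, norm_one]; norm_num
      · rw [if_neg h0, norm_zero]
        have := hb 0
        linarith
    · intro j hj0 hj1
      by_cases hj : j = n
      · have h0 : ¬ (0 = n) := by omega
        have h1 : ¬ (1 = n) := by omega
        rw [if_pos hj, if_neg h0, if_neg h1, norm_one]; norm_num
      · rw [if_neg hj, norm_zero]
        have h1 := hb 1
        have h0 := hb 0
        have := norm_sub_le (if 0 = n then 1 else 0 : 𝕜) (if 1 = n then 1 else 0 : 𝕜)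
        linarith
  · have h := norm_le_N hb n
    rw [if_pos rfl, norm_one] at h
    exact h

lemma norm_e' (n : ℕ) : ‖(e' n : X 𝕜 →L[𝕜] 𝕜)‖ = 1 := by
  apply le_antisymm
  · exact LinearMap.mkContinuous_norm_le _ zero_le_one _
  · have h := (e' n : X 𝕜 →L[𝕜] 𝕜).le_opNorm (e n)
    rw [norm_e, mul_one, e'_apply, toC_e, if_pos rfl, norm_one] at h
    exact h

lemma almostGreedy : AlmostGreedy 1 (e : ℕ → X 𝕜) e' := by
  intro f A hA
  rw [one_mul]
  refine le_csInf ⟨_, ∅, Nat.zero_le _, rfl⟩ ?_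
  rintro r ⟨B, hB, rfl⟩
  rw [norm_sub_proj, norm_sub_proj]
  exact N_greedy _ (coe_le (toC 𝕜 f)) A B hA hB

lemma not_semiGreedy (C : ℝ) (hC : C < 13 / 12) : ¬ SemiGreedy C (e : ℕ → X 𝕜) e' := by
  intro h
  set x : X 𝕜 := e 0 + (2⁻¹ : 𝕜) • e 1 + e 2 with hx
  have hc : ∀ k, toC 𝕜 x k = (if k = 0 then 1 else 0) + (2⁻¹ : 𝕜) * (if k = 1 then 1 else 0)
      + (if k = 2 then 1 else 0) := fun k => rfl
  have hc0 : toC 𝕜 x 0 = 1 := by rw [hc]; simp
  have hc1 : toC 𝕜 x 1 = 2⁻¹ := by rw [hc]; simp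
  have hc2 : toC 𝕜 x 2 = 1 := by rw [hc]; simp
  have hcj : ∀ k, k ≠ 0 → k ≠ 1 → k ≠ 2 → toC 𝕜 x k = 0 := by
    intro k h0 h1 h2; rw [hc]; simp [h0, h1, h2]
  have hle1 : ∀ k, ‖toC 𝕜 x k‖ ≤ 1 := by
    intro k
    by_cases h0 : k = 0
    · rw [h0, hc0, norm_one]
    · by_cases h1 : k = 1
      · rw [h1, hc1, norm_inv, RCLike.norm_ofNat]; norm_num
      · by_cases h2 : k = 2
        · rw [h2, hc2, norm_one]
        · rw [hcj k h0 h1 h2, norm_zero]; norm_num
  have hgreedy : IsGreedySet e' x {2} := by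
    intro n hn k _
    rw [Finset.mem_singleton] at hn
    subst hn
    rw [e'_apply, e'_apply, hc2, norm_one]
    exact hle1 k
  have h1 := h x {2} hgreedy
  rw [Finset.card_singleton] at h1
  -- the right-hand side is at most `1`
  have hright : bestTerm 𝕜 e 1 x ≤ 1 := by
    have hbound : ‖x - ∑ n ∈ ({0} : Finset ℕ), (2⁻¹ : 𝕜) • e n‖ ≤ 1 := by
      rw [norm_def]
      have hk : (fun n => toC 𝕜 (x - ∑ n ∈ ({0} : Finset ℕ), (2⁻¹ : 𝕜) • e n) n)
          = fun k => if k = 0 then 2⁻¹ else toC 𝕜 x k := by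
        funext k
        rw [toC_sub_sum x {0} (fun _ => (2⁻¹ : 𝕜)) k]
        by_cases h0 : k = 0
        · subst h0
          simp only [Finset.mem_singleton, if_true, hc0]
          norm_num
        · simp only [Finset.mem_singleton, h0, if_false]
      rw [hk]
      have hhalf : ‖(2⁻¹ : 𝕜)‖ = 1 / 2 := by rw [norm_inv, RCLike.norm_ofNat]; norm_num
      have hk' : ∀ k, k ≠ 2 → ‖(if k = 0 then 2⁻¹ else toC 𝕜 x k : 𝕜)‖ ≤ 1 / 2 := by
        intro k hk2
        by_cases h0 : k = 0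
        · rw [if_pos h0, hhalf]
        · rw [if_neg h0]
          by_cases h1 : k = 1
          · rw [h1, hc1, hhalf]
          · rw [hcj k h0 h1 hk2, norm_zero]; norm_num
      have hk'' : ∀ k, ‖(if k = 0 then 2⁻¹ else toC 𝕜 x k : 𝕜)‖ ≤ 1 := by
        intro k
        by_cases h0 : k = 0
        · rw [if_pos h0, hhalf]; norm_num
        · rw [if_neg h0]; exact hle1 k
      apply N_le_iff
      · intro i j hij
        by_cases hi : i = 2
        · have hj : j ≠ 2 := fun h => hij (hi.trans h.symm)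
          have := hk' j hj
          have := hk'' i
          linarith
        · have := hk' i hi
          have := hk'' j
          linarith
      · have := hk' 0 (by norm_num)
        have := hk' 1 (by norm_num)
        linarith
      · have := hk' 0 (by norm_num)
        have := hk' 1 (by norm_num)
        linarith
      · intro j hj0 hj1
        have hz : (if (0 : ℕ) = 0 then 2⁻¹ else toC 𝕜 x 0 : 𝕜)
            - (if (1 : ℕ) = 0 then 2⁻¹ else toC 𝕜 x 1 : 𝕜) = 0 := by
          rw [if_pos rfl, if_neg one_ne_zero, hc1, sub_self]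
        rw [hz, norm_zero, zero_div, add_zero]
        exact hk'' j
    refine (csInf_le ⟨0, ?_⟩ ?_).trans hbound
    · rintro r ⟨B, a, _, rfl⟩
      exact norm_nonneg _
    · exact ⟨{0}, fun _ => 2⁻¹, by simp, rfl⟩
  -- the left-hand side is at least `13/12`
  have hleft : (13 / 12 : ℝ) ≤
      sInf {r : ℝ | ∃ a : ℕ → 𝕜, r = ‖x - ∑ n ∈ ({2} : Finset ℕ), a n • e n‖} := by
    refine le_csInf ⟨_, fun _ => 0, rfl⟩ ?_
    rintro r ⟨a, rfl⟩
    rw [norm_def]
    have h0 := N_zero' (coe_le (toC 𝕜 (x - ∑ n ∈ ({2} : Finset ℕ), a n • e n)))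
    rw [toC_sub_sum, toC_sub_sum] at h0
    have h02 : (0 : ℕ) ∉ ({2} : Finset ℕ) := by simp
    have h12 : (1 : ℕ) ∉ ({2} : Finset ℕ) := by simp
    rw [if_neg h02, if_neg h12, hc0, hc1, norm_one, norm_inv, RCLike.norm_ofNat] at h0
    refine le_trans ?_ h0
    norm_num
  have h2 := hleft.trans h1
  have h3 : 0 ≤ bestTerm 𝕜 e 1 x := by
    refine le_csInf ⟨_, ∅, fun _ => 0, Nat.zero_le _, rfl⟩ ?_
    rintro r ⟨B, a, _, rfl⟩
    exact norm_nonneg _
  have h4 : 0 < C := by
    by_contra hneg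
    push Not at hneg
    have := mul_nonpos_of_nonpos_of_nonneg hneg h3
    linarith
  have h5 := mul_le_mul_of_nonneg_left hright h4.le
  linarith

end Space

/-- **A 1-almost-greedy Markushevich basis that is not 1-semi-greedy.**

For `𝕜 = ℝ` or `ℂ` there are a Banach space `X` over `𝕜` isomorphic to `c₀` and a normalized
Markushevich basis of `X` (with normalized biorthogonal functionals), which corresponds to the
unit vector basis of `c₀` under the isomorphism, that is `1`-almost-greedy but not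
`1`-semi-greedy; it is not even `C`-semi-greedy for any `C < 13/12`. -/
theorem result (𝕜 : Type) [RCLike 𝕜] :
    ∃ (X : Type) (_ : NormedAddCommGroup X) (_ : NormedSpace 𝕜 X) (e : ℕ → X)
      (e' : ℕ → X →L[𝕜] 𝕜) (T : X ≃L[𝕜] C₀(ℕ, 𝕜)),
      CompleteSpace X ∧ IsMarkushevichBasis e e' ∧
      (∀ n, ‖e n‖ = 1 ∧ ‖e' n‖ = 1) ∧
      (∀ n k, T (e n) k = if k = n then 1 else 0) ∧
      AlmostGreedy 1 e e' ∧ (∀ C < 13 / 12, ¬ SemiGreedy C e e') :=
  ⟨X 𝕜, inferInstance, inferInstance, e, e', T, inferInstance, isMarkushevichBasis,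
    fun n => ⟨norm_e n, norm_e' n⟩, fun _ _ => rfl, almostGreedy, not_semiGreedy⟩

end Pool.Agent.Results.MP_b7f2f1_an.AlmostNotSemi
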