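import Mathlib

set_option autoImplicit false

open scoped BigOperators ZeroAtInfty

namespace Pool.Agent.Results.MP_b7f2f1_an.SemiNotAlmost

/-! ## The notions in the statement -/

section Defs

variable {𝕜 X : Type*} [RCLike 𝕜] [NormedAddCommGroup X] [NormedSpace 𝕜 X]

/-- `(e n)` is a Markushevich basis of `X` with biorthogonal functionals `(e' n)`:
`e' k (e n) = δ_{kn}`, the linear span of `(e n)` is dense and the `e' n` separate points. -/
structure IsMarkushevichBasis (e : ℕ → X) (e' : ℕ → X →L[𝕜] 𝕜) : Prop where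
  biorthogonal : ∀ k n, e' k (e n) = if k = n then 1 else 0
  dense_span : Dense (Submodule.span 𝕜 (Set.range e) : Set X)
  separates : ∀ x y, (∀ n, e' n x = e' n y) → x = y

/-- The coordinate projection `P_A x = ∑_{n ∈ A} e' n (x) e n`. -/
def coordProj (e : ℕ → X) (e' : ℕ → X →L[𝕜] 𝕜) (A : Finset ℕ) (x : X) : X :=
  ∑ n ∈ A, e' n x • e n

/-- `A` is a greedy set of `x`: `|e' n x| ≥ |e' k x|` for all `n ∈ A`, `k ∉ A`. -/
def IsGreedySet (e' : ℕ → X →L[𝕜] 𝕜) (x : X) (A : Finset ℕ) : Prop :=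
  ∀ n ∈ A, ∀ k ∉ A, ‖e' k x‖ ≤ ‖e' n x‖

/-- `σ_m(x)`: the error of the best `m`-term approximation. -/
noncomputable def bestTerm (𝕜 : Type*) {X : Type*} [RCLike 𝕜] [NormedAddCommGroup X]
    [NormedSpace 𝕜 X] (e : ℕ → X) (m : ℕ) (x : X) : ℝ :=
  sInf {r : ℝ | ∃ (B : Finset ℕ) (a : ℕ → 𝕜), B.card ≤ m ∧ r = ‖x - ∑ n ∈ B, a n • e n‖}

/-- `σ̃_m(x)`: the error of the best `m`-term approximation by projections. -/
noncomputable def bestProj (e : ℕ → X) (e' : ℕ → X →L[𝕜] 𝕜) (m : ℕ) (x : X) : ℝ :=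
  sInf {r : ℝ | ∃ B : Finset ℕ, B.card ≤ m ∧ r = ‖x - coordProj e e' B x‖}

/-- `C`-almost-greedy. -/
def AlmostGreedy (C : ℝ) (e : ℕ → X) (e' : ℕ → X →L[𝕜] 𝕜) : Prop :=
  ∀ (x : X) (A : Finset ℕ), IsGreedySet e' x A →
    ‖x - coordProj e e' A x‖ ≤ C * bestProj e e' A.card x

/-- `C`-semi-greedy. -/
def SemiGreedy (C : ℝ) (e : ℕ → X) (e' : ℕ → X →L[𝕜] 𝕜) : Prop :=
  ∀ (x : X) (A : Finset ℕ), IsGreedySet e' x A →
    sInf {r : ℝ | ∃ a : ℕ → 𝕜, r = ‖x - ∑ n ∈ A, a n • e n‖} ≤ C * bestTerm 𝕜 e A.card x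

end Defs

/-! ## The norm on sequences -/

section Norm

variable {𝕜 : Type*} [RCLike 𝕜]

/-- the correction term -/
noncomputable def b (j : ℕ) (f : ℕ → 𝕜) : ℝ :=
  if j = 0 then 0 else if j = 1 then 0 else ‖f 0 - f 1‖

/-- the seminorms whose supremum is the new norm -/
noncomputable def φ (p : ℕ × ℕ) (f : ℕ → 𝕜) : ℝ :=
  if p.1 = p.2 then ‖f p.1‖ + b p.1 f / 6 else 2 / 3 * (‖f p.1‖ + ‖f p.2‖)

/-- the new norm -/
noncomputable def N (f : ℕ → 𝕜) : ℝ := ⨆ p : ℕ × ℕ, φ p f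

lemma b_nonneg (j : ℕ) (f : ℕ → 𝕜) : 0 ≤ b j f := by
  unfold b; split_ifs <;> positivity

lemma φ_nonneg (p : ℕ × ℕ) (f : ℕ → 𝕜) : 0 ≤ φ p f := by
  have := b_nonneg p.1 f
  unfold φ; split_ifs <;> positivity

lemma b_le (j : ℕ) (f : ℕ → 𝕜) {M : ℝ} (hM : ∀ n, ‖f n‖ ≤ M) : b j f ≤ 2 * M := by
  have h0 := hM 0
  have h1 := hM 1
  have hs := norm_sub_le (f 0) (f 1)
  have := norm_nonneg (f 0)
  unfold b; split_ifs <;> linarith

lemma φ_le (p : ℕ × ℕ) (f : ℕ → 𝕜) {M : ℝ} (hM : ∀ n, ‖f n‖ ≤ M) : φ p f ≤ 4 / 3 * M := by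
  have h1 := b_le p.1 f hM
  have h2 := hM p.1
  have h3 := hM p.2
  unfold φ; split_ifs <;> linarith

lemma bdd (f : ℕ → 𝕜) {M : ℝ} (hM : ∀ n, ‖f n‖ ≤ M) : BddAbove (Set.range fun p => φ p f) :=
  ⟨4 / 3 * M, by rintro _ ⟨p, rfl⟩; exact φ_le p f hM⟩

lemma N_le (f : ℕ → 𝕜) {M : ℝ} (hM : ∀ n, ‖f n‖ ≤ M) : N f ≤ 4 / 3 * M :=
  ciSup_le fun p => φ_le p f hM

lemma N_nonneg (f : ℕ → 𝕜) : 0 ≤ N f := Real.iSup_nonneg fun p => φ_nonneg p f

lemma φ_le_N {f : ℕ → 𝕜} {M : ℝ} (hM : ∀ n, ‖f n‖ ≤ M) (p : ℕ × ℕ) : φ p f ≤ N f :=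
  le_ciSup (bdd f hM) p

lemma N_pair {f : ℕ → 𝕜} {M : ℝ} (hM : ∀ n, ‖f n‖ ≤ M) {i j : ℕ} (h : i ≠ j) :
    2 / 3 * (‖f i‖ + ‖f j‖) ≤ N f := by
  have := φ_le_N hM (i, j)
  simpa [φ, h] using this

lemma N_single {f : ℕ → 𝕜} {M : ℝ} (hM : ∀ n, ‖f n‖ ≤ M) (j : ℕ) :
    ‖f j‖ + b j f / 6 ≤ N f := by
  have := φ_le_N hM (j, j)
  simpa [φ] using this

lemma N_two' {f : ℕ → 𝕜} {M : ℝ} (hM : ∀ n, ‖f n‖ ≤ M) {j : ℕ} (h0 : j ≠ 0) (h1 : j ≠ 1) :
    ‖f j‖ + ‖f 0 - f 1‖ / 6 ≤ N f := by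
  simpa [b, h0, h1] using N_single hM j

lemma norm_le_N {f : ℕ → 𝕜} {M : ℝ} (hM : ∀ n, ‖f n‖ ≤ M) (j : ℕ) : ‖f j‖ ≤ N f := by
  have h1 := N_single hM j
  have h2 := b_nonneg j f
  linarith

/-- upper bounds for the new norm -/
lemma N_le_iff {f : ℕ → 𝕜} {C : ℝ}
    (h1 : ∀ i j, i ≠ j → 2 / 3 * (‖f i‖ + ‖f j‖) ≤ C)
    (h2 : ‖f 0‖ ≤ C) (h3 : ‖f 1‖ ≤ C)
    (h4 : ∀ j, j ≠ 0 → j ≠ 1 → ‖f j‖ + ‖f 0 - f 1‖ / 6 ≤ C) : N f ≤ C := by
  refine ciSup_le ?_
  rintro ⟨i, j⟩
  by_cases hij : i = j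
  · subst hij
    by_cases hi0 : i = 0
    · subst hi0; simpa [φ, b] using h2
    · by_cases hi1 : i = 1
      · subst hi1; simpa [φ, b] using h3
      · simpa [φ, b, hi0, hi1] using h4 i hi0 hi1
  · simpa [φ, hij] using h1 i j hij

lemma φ_add (p : ℕ × ℕ) (f g : ℕ → 𝕜) : φ p (f + g) ≤ φ p f + φ p g := by
  have h1 := norm_add_le (f p.1) (g p.1)
  have h2 := norm_add_le (f p.2) (g p.2)
  have h5 : ‖f 0 + g 0 - (f 1 + g 1)‖ ≤ ‖f 0 - f 1‖ + ‖g 0 - g 1‖ := by
    have := norm_add_le (f 0 - f 1) (g 0 - g 1)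
    rwa [show f 0 - f 1 + (g 0 - g 1) = f 0 + g 0 - (f 1 + g 1) by ring] at this
  simp only [φ, b, Pi.add_apply]
  split_ifs <;> linarith

lemma φ_smul (p : ℕ × ℕ) (c : 𝕜) (f : ℕ → 𝕜) : φ p (c • f) = ‖c‖ * φ p f := by
  simp only [φ, b, Pi.smul_apply, smul_eq_mul, ← mul_sub, norm_mul]
  split_ifs <;> ring

lemma N_add {f g : ℕ → 𝕜} {M M' : ℝ} (hf : ∀ n, ‖f n‖ ≤ M) (hg : ∀ n, ‖g n‖ ≤ M') :
    N (f + g) ≤ N f + N g :=
  ciSup_le fun p => (φ_add p f g).trans (add_le_add (φ_le_N hf p) (φ_le_N hg p))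

lemma N_smul (c : 𝕜) (f : ℕ → 𝕜) : N (c • f) = ‖c‖ * N f := by
  unfold N
  rw [Real.mul_iSup_of_nonneg (norm_nonneg c)]
  exact iSup_congr fun p => φ_smul p c f

/-- Rearrangement: if `A` is a greedy set of `f` and `|B| ≤ |A|` then the coordinates outside `A`
inject into the coordinates outside `B` with larger moduli; a coordinate outside `A` that is moved
goes into `A`. -/
lemma exists_inj (f : ℕ → 𝕜) (A B : Finset ℕ)
    (hA : ∀ n ∈ A, ∀ k ∉ A, ‖f k‖ ≤ ‖f n‖) (hcard : B.card ≤ A.card) :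
    ∃ π : ℕ → ℕ, (∀ i, i ∉ A → ∀ j, j ∉ A → π i = π j → i = j) ∧
      (∀ i, i ∉ A → π i ∉ B ∧ ‖f i‖ ≤ ‖f (π i)‖) ∧
      (∀ i, i ∉ A → i ∉ B → π i = i) ∧ (∀ i, i ∉ A → i ∈ B → π i ∈ A) := by
  classical
  have hc : (B \ A).card ≤ (A \ B).card := Finset.card_sdiff_le_card_sdiff_iff.2 hcard
  have hne : Nonempty (↥(B \ A) ↪ ↥(A \ B)) := by
    apply Function.Embedding.nonempty_of_card_le
    simpa using hc
  obtain ⟨ψ⟩ := hne
  let π : ℕ → ℕ := fun i => if h : i ∈ B \ A then (ψ ⟨i, h⟩ : ℕ) else i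
  have h1 : ∀ i, i ∉ A → i ∉ B → π i = i := by
    intro i _ hiB
    have : i ∉ B \ A := fun h => hiB (Finset.mem_sdiff.1 h).1
    simp only [π, this, dif_neg, not_false_eq_true]
  have h2 : ∀ i (hiA : i ∉ A) (hiB : i ∈ B), π i = (ψ ⟨i, Finset.mem_sdiff.2 ⟨hiB, hiA⟩⟩ : ℕ) := by
    intro i hiA hiB
    have : i ∈ B \ A := Finset.mem_sdiff.2 ⟨hiB, hiA⟩
    simp only [π, this, dif_pos]
  have h3 : ∀ i, i ∉ A → i ∈ B → π i ∈ A \ B := by
    intro i hiA hiB
    rw [h2 i hiA hiB]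
    exact (ψ _).2
  refine ⟨π, ?_, ?_, h1, fun i hiA hiB => (Finset.mem_sdiff.1 (h3 i hiA hiB)).1⟩
  · intro i hi j hj hij
    by_cases hiB : i ∈ B
    · by_cases hjB : j ∈ B
      · rw [h2 i hi hiB, h2 j hj hjB] at hij
        have := ψ.injective (Subtype.ext hij)
        simpa using this
      · rw [h1 j hj hjB] at hij
        have := (Finset.mem_sdiff.1 (h3 i hi hiB)).1
        rw [hij] at this
        exact absurd this hj
    · by_cases hjB : j ∈ B
      · rw [h1 i hi hiB] at hij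
        have := (Finset.mem_sdiff.1 (h3 j hj hjB)).1
        rw [← hij] at this
        exact absurd this hi
      · rw [h1 i hi hiB, h1 j hj hjB] at hij
        exact hij
  · intro i hi
    by_cases hiB : i ∈ B
    · have := Finset.mem_sdiff.1 (h3 i hi hiB)
      exact ⟨this.2, hA _ this.1 i hi⟩
    · rw [h1 i hi hiB]
      exact ⟨hiB, le_refl _⟩

/-- the case where exactly one special coordinate `u` is in `A` and the other one, `v`, is not -/
lemma N_semi_aux (f z : ℕ → 𝕜) (A : Finset ℕ)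
    (hs : ∀ i, i ∉ A → ‖f i‖ ≤ N z)
    (hp : ∀ i j, i ∉ A → j ∉ A → i ≠ j → 2 / 3 * (‖f i‖ + ‖f j‖) ≤ N z) (hN : 0 ≤ N z)
    (u v : ℕ) (huv : u ≠ v) (hor : (u = 0 ∧ v = 1) ∨ (u = 1 ∧ v = 0)) (hu : u ∈ A) (hv : v ∉ A) :
    ∃ y : ℕ → 𝕜, (∀ n, n ∉ A → y n = f n) ∧ N y ≤ N z := by
  classical
  -- value `c` at the free special coordinate
  obtain ⟨c, hc⟩ : ∃ c : 𝕜, (c = f v ∧ ∃ j, j ≠ u ∧ j ≠ v ∧ j ∉ A ∧ ‖f v‖ ≤ ‖f j‖) ∨
      (c = 0 ∧ ∀ j, j ≠ u → j ≠ v → j ∉ A → ‖f j‖ ≤ ‖f v‖) := by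
    by_cases h : ∃ j, j ≠ u ∧ j ≠ v ∧ j ∉ A ∧ ‖f v‖ ≤ ‖f j‖
    · exact ⟨f v, Or.inl ⟨rfl, h⟩⟩
    · refine ⟨0, Or.inr ⟨rfl, ?_⟩⟩
      intro j h1 h2 h3
      by_contra h4
      push Not at h4
      exact h ⟨j, h1, h2, h3, h4.le⟩
  set y : ℕ → 𝕜 := fun n => if n = u then c else if n ∈ A then 0 else f n with hy
  have hyu : y u = c := if_pos rfl
  have hyA : ∀ n, n ≠ u → n ∈ A → y n = 0 := by
    intro n h1 h2; simp only [hy, h1, if_false, h2, if_true]
  have hyn : ∀ n, n ∉ A → y n = f n := by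
    intro n h2
    have h1 : n ≠ u := by rintro rfl; exact h2 hu
    simp only [hy, h1, if_false, h2]
  have hcv : ‖c‖ ≤ ‖f v‖ := by
    rcases hc with ⟨rfl, _⟩ | ⟨rfl, _⟩
    · exact le_refl _
    · rw [norm_zero]; exact norm_nonneg _
  have hsv := hs v hv
  have hsy : ∀ i, ‖y i‖ ≤ N z := by
    intro i
    by_cases hi : i = u
    · rw [hi, hyu]; exact hcv.trans hsv
    · by_cases hiA : i ∈ A
      · rw [hyA i hi hiA, norm_zero]; exact hN
      · rw [hyn i hiA]; exact hs i hiA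
  -- pairs containing `u`
  have hpu : ∀ j, j ≠ u → 2 / 3 * (‖c‖ + ‖y j‖) ≤ N z := by
    intro j hj
    by_cases hjA : j ∈ A
    · rw [hyA j hj hjA, norm_zero]
      have := norm_nonneg c
      linarith
    · rw [hyn j hjA]
      by_cases hjv : j = v
      · subst hjv
        rcases hc with ⟨rfl, j0, h1, h2, h3, h4⟩ | ⟨rfl, _⟩
        · have := hp j j0 hv h3 (Ne.symm h2)
          linarith
        · rw [norm_zero]
          have := norm_nonneg (f j)
          linarith
      · have := hp v j hv hjA (Ne.symm hjv)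
        linarith
  have hpair : ∀ i j, i ≠ j → 2 / 3 * (‖y i‖ + ‖y j‖) ≤ N z := by
    intro i j hij
    by_cases hi : i = u
    · rw [hi, hyu]
      exact hpu j (by rw [← hi]; exact Ne.symm hij)
    · by_cases hj : j = u
      · rw [hj, hyu, add_comm]
        exact hpu i (by rw [← hj]; exact hij)
      · by_cases hiA : i ∈ A
        · rw [hyA i hi hiA, norm_zero]
          have := hsy j
          linarith
        · by_cases hjA : j ∈ A
          · rw [hyA j hj hjA, norm_zero]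
            have := hsy i
            linarith
          · rw [hyn i hiA, hyn j hjA]
            exact hp i j hiA hjA hij
  have hdiff : ‖y 0 - y 1‖ = ‖c - f v‖ := by
    rcases hor with ⟨h1, h2⟩ | ⟨h1, h2⟩
    · rw [← h1, ← h2, hyu, hyn v hv]
    · rw [← h1, ← h2, hyu, hyn v hv, norm_sub_rev]
  refine ⟨y, hyn, N_le_iff hpair (hsy 0) (hsy 1) ?_⟩
  intro j hj0 hj1
  rw [hdiff]
  rcases hc with ⟨rfl, _⟩ | ⟨rfl, hsmall⟩
  · rw [sub_self, norm_zero, zero_div, add_zero]
    exact hsy j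
  · rw [zero_sub, norm_neg]
    have hju : j ≠ u := by rcases hor with ⟨h1, h2⟩ | ⟨h1, h2⟩ <;> rw [h1] <;> assumption
    have hjv : j ≠ v := by rcases hor with ⟨h1, h2⟩ | ⟨h1, h2⟩ <;> rw [h2] <;> assumption
    by_cases hjA : j ∈ A
    · rw [hyA j hju hjA, norm_zero]
      have := norm_nonneg (f v)
      linarith
    · rw [hyn j hjA]
      have h1 := hp j v hjA hv hjv
      have h2 := hsmall j hju hjv hjA
      linarith

/-- the semi-greedy inequality at the level of sequences -/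
lemma N_semi (f z : ℕ → 𝕜) {M : ℝ} (hM : ∀ n, ‖z n‖ ≤ M) (A B : Finset ℕ)
    (hz : ∀ n, n ∉ B → z n = f n)
    (hA : ∀ n ∈ A, ∀ k ∉ A, ‖f k‖ ≤ ‖f n‖) (hcard : B.card ≤ A.card) :
    ∃ y : ℕ → 𝕜, (∀ n, n ∉ A → y n = f n) ∧ N y ≤ N z := by
  obtain ⟨π, hinj, hπ, hfix, hmove⟩ := exists_inj f A B hA hcard
  have hzπ : ∀ i, i ∉ A → ‖f i‖ ≤ ‖z (π i)‖ := by
    intro i hi
    rw [hz _ (hπ i hi).1]
    exact (hπ i hi).2
  -- single coordinates and pairs outside `A`
  have hs : ∀ i, i ∉ A → ‖f i‖ ≤ N z := fun i hi => (hzπ i hi).trans (norm_le_N hM _)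
  have hp : ∀ i j, i ∉ A → j ∉ A → i ≠ j → 2 / 3 * (‖f i‖ + ‖f j‖) ≤ N z := by
    intro i j hi hj hij
    have h1 : π i ≠ π j := fun h => hij (hinj i hi j hj h)
    have h2 := N_pair hM h1
    have h3 := hzπ i hi
    have h4 := hzπ j hj
    linarith
  have hN := N_nonneg z
  -- the vector `f` off `A`, `c0` at `0` and `c1` at `1` if these are in `A`
  by_cases h0 : (0 : ℕ) ∈ A
  · by_cases h1 : (1 : ℕ) ∈ A
    · -- both special coordinates are free
      refine ⟨fun n => if n ∈ A then 0 else f n, fun n hn => if_neg hn, ?_⟩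
      have hsy : ∀ i, ‖(if i ∈ A then 0 else f i : 𝕜)‖ ≤ N z := by
        intro i
        split_ifs with hi
        · rw [norm_zero]; exact hN
        · exact hs i hi
      apply N_le_iff
      · intro i j hij
        by_cases hi : i ∈ A
        · rw [if_pos hi, norm_zero]
          have := hsy j
          linarith
        · by_cases hj : j ∈ A
          · rw [if_pos hj, norm_zero]
            have := hsy i
            linarith
          · rw [if_neg hi, if_neg hj]
            exact hp i j hi hj hij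
      · exact hsy 0
      · exact hsy 1
      · intro j _ _
        rw [if_pos h0, if_pos h1, sub_self, norm_zero, zero_div, add_zero]
        exact hsy j
    · exact N_semi_aux f z A hs hp hN 0 1 (by norm_num) (Or.inl ⟨rfl, rfl⟩) h0 h1
  · by_cases h1 : (1 : ℕ) ∈ A
    · exact N_semi_aux f z A hs hp hN 1 0 (by norm_num) (Or.inr ⟨rfl, rfl⟩) h1 h0
    · -- no special coordinate is free
      refine ⟨fun n => if n ∈ A then 0 else f n, fun n hn => if_neg hn, ?_⟩
      have hsy : ∀ i, ‖(if i ∈ A then 0 else f i : 𝕜)‖ ≤ N z := by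
        intro i
        split_ifs with hi
        · rw [norm_zero]; exact hN
        · exact hs i hi
      apply N_le_iff
      · intro i j hij
        by_cases hi : i ∈ A
        · rw [if_pos hi, norm_zero]
          have := hsy j
          linarith
        · by_cases hj : j ∈ A
          · rw [if_pos hj, norm_zero]
            have := hsy i
            linarith
          · rw [if_neg hi, if_neg hj]
            exact hp i j hi hj hij
      · exact hsy 0
      · exact hsy 1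
      · intro j hj0 hj1
        rw [if_neg h0, if_neg h1]
        by_cases hB : (0 : ℕ) ∉ B ∧ (1 : ℕ) ∉ B
        · -- `z` has the same special coordinates
          obtain ⟨hB0, hB1⟩ := hB
          by_cases hj : j ∈ A
          · rw [if_pos hj, norm_zero, zero_add]
            have := N_two' hM hj0 hj1
            rw [hz 0 hB0, hz 1 hB1] at this
            have := norm_nonneg (z j)
            linarith
          · rw [if_neg hj]
            have h0' : π j ≠ 0 := by
              by_cases hjB : j ∈ B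
              · intro h
                have := hmove j hj hjB
                rw [h] at this
                exact h0 this
              · rw [hfix j hj hjB]; exact hj0
            have h1' : π j ≠ 1 := by
              by_cases hjB : j ∈ B
              · intro h
                have := hmove j hj hjB
                rw [h] at this
                exact h1 this
              · rw [hfix j hj hjB]; exact hj1
            have h2 := N_two' hM h0' h1'
            rw [hz 0 hB0, hz 1 hB1] at h2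
            have := hzπ j hj
            linarith
        · -- one of the special coordinates is in `B`
          obtain ⟨i0, hi0, hi0B, hi0'⟩ : ∃ i0, i0 ∉ A ∧ i0 ∈ B ∧ i0 ≠ j := by
            by_cases hB0 : (0 : ℕ) ∈ B
            · exact ⟨0, h0, hB0, Ne.symm hj0⟩
            · have : (1 : ℕ) ∈ B := by
                by_contra hB1
                exact hB ⟨hB0, hB1⟩
              exact ⟨1, h1, this, Ne.symm hj1⟩
          have ha := hmove i0 hi0 hi0B
          have haB := (hπ i0 hi0).1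
          have e0 := hA _ ha 0 h0
          have e1 := hA _ ha 1 h1
          have tri := norm_sub_le (f 0) (f 1)
          rw [← hz _ haB] at e0 e1
          by_cases hj : j ∈ A
          · rw [if_pos hj, norm_zero, zero_add]
            have := norm_le_N hM (π i0)
            have := norm_nonneg (z (π i0))
            linarith
          · rw [if_neg hj]
            have hne : π i0 ≠ π j := fun h => hi0' (hinj i0 hi0 j hj h)
            have h2 := N_pair hM hne
            have h3 := hzπ j hj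
            have e2 := hA _ ha j hj
            rw [← hz _ haB] at e2
            linarith

end Norm

/-! ## The space -/

section Space

variable (𝕜 : Type) [RCLike 𝕜]

/-- `c₀`, to be equipped with the new norm -/
def X : Type := C₀(ℕ, 𝕜)

noncomputable instance : AddCommGroup (X 𝕜) := inferInstanceAs (AddCommGroup C₀(ℕ, 𝕜))

noncomputable instance : Module 𝕜 (X 𝕜) := inferInstanceAs (Module 𝕜 C₀(ℕ, 𝕜))

/-- the identity map onto `c₀` -/
noncomputable def toC : X 𝕜 ≃ₗ[𝕜] C₀(ℕ, 𝕜) := LinearEquiv.refl 𝕜 C₀(ℕ, 𝕜)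

noncomputable instance : Norm (X 𝕜) := ⟨fun f => N (fun n => toC 𝕜 f n)⟩

variable {𝕜}

lemma norm_def (f : X 𝕜) : ‖f‖ = N (fun n => toC 𝕜 f n) := rfl

lemma coe_le (f : C₀(ℕ, 𝕜)) (n : ℕ) : ‖f n‖ ≤ ‖f‖ := by
  rw [← ZeroAtInftyContinuousMap.norm_toBCF_eq_norm]
  exact f.toBCF.norm_coe_le_norm n

lemma core : NormedSpace.Core 𝕜 (X 𝕜) where
  norm_nonneg f := N_nonneg _
  norm_smul c f := by
    rw [norm_def, norm_def, ← N_smul]
    congr 1
  norm_triangle f g := by
    rw [norm_def, norm_def, norm_def]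
    exact N_add (coe_le (toC 𝕜 f)) (coe_le (toC 𝕜 g))
  norm_eq_zero_iff f := by
    constructor
    · intro h
      apply (toC 𝕜).injective
      ext n
      rw [norm_def] at h
      have := norm_le_N (coe_le (toC 𝕜 f)) n
      rw [h] at this
      simpa using this
    · rintro rfl
      rw [norm_def]
      have h1 := N_nonneg (fun n => toC 𝕜 0 n)
      have h2 := N_le (fun n => toC 𝕜 0 n) (M := 0) (by intro n; simp)
      linarith

noncomputable instance : NormedAddCommGroup (X 𝕜) := NormedAddCommGroup.ofCore core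

noncomputable instance : NormedSpace 𝕜 (X 𝕜) := NormedSpace.ofCore core

/-- the new norm is equivalent to the norm of `c₀` -/
noncomputable def T : X 𝕜 ≃L[𝕜] C₀(ℕ, 𝕜) :=
  LinearEquiv.toContinuousLinearEquivOfBounds (toC 𝕜) 1 (4 / 3)
    (by
      intro f
      rw [one_mul, norm_def, ← ZeroAtInftyContinuousMap.norm_toBCF_eq_norm,
        BoundedContinuousFunction.norm_le (N_nonneg _)]
      exact norm_le_N (coe_le (toC 𝕜 f)))
    (by
      intro f
      rw [norm_def]
      exact N_le _ (coe_le f))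

lemma T_apply (f : X 𝕜) : T f = toC 𝕜 f := rfl

instance : CompleteSpace (X 𝕜) :=
  (completeSpace_congr (e := T.toEquiv) (T (𝕜 := 𝕜)).isUniformEmbedding).2 inferInstance

/-- the unit vectors of `c₀` -/
noncomputable def unit (n : ℕ) : C₀(ℕ, 𝕜) where
  toFun := fun k => if k = n then 1 else 0
  continuous_toFun := continuous_of_discreteTopology
  zero_at_infty' := by
    rw [Filter.cocompact_eq_cofinite]
    apply tendsto_nhds_of_eventually_eq
    rw [Filter.eventually_cofinite]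
    refine (Set.finite_singleton n).subset ?_
    intro k hk
    by_contra h
    exact hk (if_neg h)

lemma unit_apply (n k : ℕ) : (unit n : C₀(ℕ, 𝕜)) k = if k = n then 1 else 0 := rfl

/-- the basis -/
noncomputable def e (n : ℕ) : X 𝕜 := (toC 𝕜).symm (unit n)

/-- the biorthogonal functionals -/
noncomputable def e' (n : ℕ) : X 𝕜 →L[𝕜] 𝕜 :=
  LinearMap.mkContinuous
    { toFun := fun f => toC 𝕜 f n
      map_add' := fun f g => rfl
      map_smul' := fun c f => rfl } 1
    (by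
      intro f
      rw [one_mul]
      exact norm_le_N (coe_le (toC 𝕜 f)) n)

lemma e'_apply (n : ℕ) (f : X 𝕜) : e' n f = toC 𝕜 f n := rfl

lemma toC_e (n k : ℕ) : toC 𝕜 (e n) k = if k = n then 1 else 0 := rfl

lemma toC_sum (B : Finset ℕ) (a : ℕ → 𝕜) (k : ℕ) :
    toC 𝕜 (∑ n ∈ B, a n • e n) k = if k ∈ B then a k else 0 := by
  classical
  rw [← e'_apply, map_sum]
  simp only [map_smul, e'_apply, toC_e, smul_eq_mul, mul_ite, mul_one, mul_zero]
  rw [Finset.sum_ite_eq]

lemma toC_sub_sum (f : X 𝕜) (B : Finset ℕ) (a : ℕ → 𝕜) (k : ℕ) :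
    toC 𝕜 (f - ∑ n ∈ B, a n • e n) k = if k ∈ B then toC 𝕜 f k - a k else toC 𝕜 f k := by
  have : toC 𝕜 (f - ∑ n ∈ B, a n • e n) k = toC 𝕜 f k - toC 𝕜 (∑ n ∈ B, a n • e n) k := rfl
  rw [this, toC_sum]
  split_ifs <;> simp

lemma toC_sub_proj (f : X 𝕜) (B : Finset ℕ) (k : ℕ) :
    toC 𝕜 (f - coordProj e e' B f) k = if k ∈ B then 0 else toC 𝕜 f k := by
  unfold coordProj
  rw [toC_sub_sum f B (fun n => e' n f)]
  split_ifs <;> simp [e'_apply]

lemma norm_sub_proj (f : X 𝕜) (B : Finset ℕ) :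
    ‖f - coordProj e e' B f‖ = N (fun n => if n ∈ B then 0 else toC 𝕜 f n) := by
  rw [norm_def]
  congr 1
  funext k
  exact toC_sub_proj f B k

lemma isMarkushevichBasis : IsMarkushevichBasis (e : ℕ → X 𝕜) e' where
  biorthogonal k n := toC_e n k
  dense_span := by
    rw [Metric.dense_iff]
    intro f r hr
    have h0 := (toC 𝕜 f).zero_at_infty'
    rw [Filter.cocompact_eq_cofinite, Metric.tendsto_nhds] at h0
    have h1 := h0 (r / 2) (by positivity)
    rw [Filter.eventually_cofinite] at h1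
    set A : Finset ℕ := h1.toFinset with hA
    refine ⟨coordProj e e' A f, ?_, ?_⟩
    · rw [Metric.mem_ball, dist_comm, dist_eq_norm, norm_sub_proj]
      have : N (fun n => if n ∈ A then 0 else toC 𝕜 f n) ≤ 4 / 3 * (r / 2) := by
        apply N_le
        intro n
        split_ifs with hn
        · rw [norm_zero]; positivity
        · rw [hA, Set.Finite.mem_toFinset, Set.mem_ofPred_eq, not_not, dist_zero_right] at hn
          exact hn.le
      linarith
    · exact Submodule.sum_mem _ fun n _ =>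
        Submodule.smul_mem _ _ (Submodule.subset_span ⟨n, rfl⟩)
  separates f g h := by
    apply (toC 𝕜).injective
    ext n
    exact h n

lemma norm_e (n : ℕ) : ‖(e n : X 𝕜)‖ = 1 := by
  rw [norm_def]
  have hb : ∀ k, ‖(if k = n then 1 else 0 : 𝕜)‖ ≤ 1 := by
    intro k; split_ifs <;> simp
  apply le_antisymm
  · change N (fun k => (if k = n then 1 else 0 : 𝕜)) ≤ 1
    apply N_le_iff
    · intro i j hij
      by_cases hi : i = n
      · have hj : j ≠ n := fun h => hij (hi.trans h.symm)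
        rw [if_pos hi, if_neg hj, norm_zero, norm_one]; norm_num
      · rw [if_neg hi, norm_zero]
        have := hb j
        linarith
    · exact hb 0
    · exact hb 1
    · intro j hj0 hj1
      by_cases hj : j = n
      · have h0 : ¬ (0 = n) := by omega
        have h1 : ¬ (1 = n) := by omega
        rw [if_pos hj, if_neg h0, if_neg h1, norm_one]; norm_num
      · rw [if_neg hj, norm_zero]
        have h1 := hb 1
        have h0 := hb 0
        have := norm_sub_le (if 0 = n then 1 else 0 : 𝕜) (if 1 = n then 1 else 0 : 𝕜)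
        linarith
  · have h := norm_le_N hb n
    rw [if_pos rfl, norm_one] at h
    exact h

lemma norm_e' (n : ℕ) : ‖(e' n : X 𝕜 →L[𝕜] 𝕜)‖ = 1 := by
  apply le_antisymm
  · exact LinearMap.mkContinuous_norm_le _ zero_le_one _
  · have h := (e' n : X 𝕜 →L[𝕜] 𝕜).le_opNorm (e n)
    rw [norm_e, mul_one, e'_apply, toC_e, if_pos rfl, norm_one] at h
    exact h

lemma semiGreedy : SemiGreedy 1 (e : ℕ → X 𝕜) e' := by
  intro x A hA
  rw [one_mul]
  refine le_csInf ⟨_, ∅, fun _ => 0, Nat.zero_le _, rfl⟩ ?_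
  rintro r ⟨B, a, hB, rfl⟩
  obtain ⟨y, hy, hyN⟩ := N_semi (fun n => toC 𝕜 x n)
    (fun n => toC 𝕜 (x - ∑ n ∈ B, a n • e n) n) (coe_le _) A B
    (by intro n hn; rw [toC_sub_sum, if_neg hn]) hA hB
  have hmem : ‖x - ∑ n ∈ A, (toC 𝕜 x n - y n) • e n‖ ∈
      {r : ℝ | ∃ a : ℕ → 𝕜, r = ‖x - ∑ n ∈ A, a n • e n‖} :=
    ⟨fun n => toC 𝕜 x n - y n, rfl⟩
  refine (csInf_le ⟨0, ?_⟩ hmem).trans ?_
  · rintro r ⟨a, rfl⟩
    exact norm_nonneg _
  · rw [norm_def, norm_def]
    have : (fun n => toC 𝕜 (x - ∑ n ∈ A, (toC 𝕜 x n - y n) • e n) n) = y := by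
      funext k
      rw [toC_sub_sum x A (fun n => toC 𝕜 x n - y n)]
      split_ifs with hk
      · ring
      · exact (hy k hk).symm
    rw [this]
    exact hyN

lemma not_almostGreedy (C : ℝ) (hC : C < 13 / 12) : ¬ AlmostGreedy C (e : ℕ → X 𝕜) e' := by
  intro h
  set x : X 𝕜 := e 0 + (2⁻¹ : 𝕜) • e 1 + e 2 with hx
  have hc : ∀ k, toC 𝕜 x k = (if k = 0 then 1 else 0) + (2⁻¹ : 𝕜) * (if k = 1 then 1 else 0)
      + (if k = 2 then 1 else 0) := fun k => rfl
  have hc0 : toC 𝕜 x 0 = 1 := by rw [hc]; simp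
  have hc1 : toC 𝕜 x 1 = 2⁻¹ := by rw [hc]; simp
  have hc2 : toC 𝕜 x 2 = 1 := by rw [hc]; simp
  have hcj : ∀ k, k ≠ 0 → k ≠ 1 → k ≠ 2 → toC 𝕜 x k = 0 := by
    intro k h0 h1 h2; rw [hc]; simp [h0, h1, h2]
  have hhalf : ‖(2⁻¹ : 𝕜)‖ = 1 / 2 := by rw [norm_inv, RCLike.norm_ofNat]; norm_num
  have hle1 : ∀ k, ‖toC 𝕜 x k‖ ≤ 1 := by
    intro k
    by_cases h0 : k = 0
    · rw [h0, hc0, norm_one]
    · by_cases h1 : k = 1
      · rw [h1, hc1, hhalf]; norm_num
      · by_cases h2 : k = 2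
        · rw [h2, hc2, norm_one]
        · rw [hcj k h0 h1 h2, norm_zero]; norm_num
  have hgreedy : IsGreedySet e' x {0} := by
    intro n hn k _
    rw [Finset.mem_singleton] at hn
    subst hn
    rw [e'_apply, e'_apply, hc0, norm_one]
    exact hle1 k
  have h1 := h x {0} hgreedy
  rw [Finset.card_singleton] at h1
  -- the right-hand side is at most `1`
  have hright : bestProj e e' 1 x ≤ 1 := by
    have hbound : ‖x - coordProj e e' {2} x‖ ≤ 1 := by
      rw [norm_sub_proj]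
      have hk' : ∀ k, k ≠ 0 → ‖(if k ∈ ({2} : Finset ℕ) then 0 else toC 𝕜 x k : 𝕜)‖ ≤ 1 / 2 := by
        intro k hk0
        by_cases h2 : k = 2
        · rw [h2, if_pos (Finset.mem_singleton_self 2), norm_zero]; norm_num
        · rw [if_neg (by rw [Finset.mem_singleton]; exact h2)]
          by_cases h1 : k = 1
          · rw [h1, hc1, hhalf]
          · rw [hcj k hk0 h1 h2, norm_zero]; norm_num
      have hk'' : ∀ k, ‖(if k ∈ ({2} : Finset ℕ) then 0 else toC 𝕜 x k : 𝕜)‖ ≤ 1 := by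
        intro k
        split_ifs
        · rw [norm_zero]; norm_num
        · exact hle1 k
      apply N_le_iff
      · intro i j hij
        by_cases hi : i = 0
        · have hj : j ≠ 0 := fun h => hij (hi.trans h.symm)
          have := hk' j hj
          have := hk'' i
          linarith
        · have := hk' i hi
          have := hk'' j
          linarith
      · exact hk'' 0
      · exact hk'' 1
      · intro j hj0 hj1
        have h3 : ‖(if j ∈ ({2} : Finset ℕ) then 0 else toC 𝕜 x j : 𝕜)‖ = 0 := by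
          by_cases h2 : j = 2
          · rw [h2, if_pos (Finset.mem_singleton_self 2), norm_zero]
          · rw [if_neg (by rw [Finset.mem_singleton]; exact h2), hcj j hj0 hj1 h2, norm_zero]
        have h4 := norm_sub_le (if (0 : ℕ) ∈ ({2} : Finset ℕ) then 0 else toC 𝕜 x 0 : 𝕜)
          (if (1 : ℕ) ∈ ({2} : Finset ℕ) then 0 else toC 𝕜 x 1 : 𝕜)
        have h5 := hk'' 0
        have h6 := hk'' 1
        linarith
    refine (csInf_le ⟨0, ?_⟩ ?_).trans hbound
    · rintro r ⟨B, _, rfl⟩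
      exact norm_nonneg _
    · exact ⟨{2}, by simp, rfl⟩
  -- the left-hand side is at least `13/12`
  have hleft : (13 / 12 : ℝ) ≤ ‖x - coordProj e e' {0} x‖ := by
    rw [norm_def]
    have h0 := N_two' (coe_le (toC 𝕜 (x - coordProj e e' {0} x))) (j := 2)
      (by norm_num) (by norm_num)
    rw [toC_sub_proj, toC_sub_proj, toC_sub_proj] at h0
    have h02 : (2 : ℕ) ∉ ({0} : Finset ℕ) := by simp
    have h12 : (1 : ℕ) ∉ ({0} : Finset ℕ) := by simp
    rw [if_neg h02, if_neg h12, if_pos (Finset.mem_singleton_self 0), hc2, hc1, norm_one,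
      zero_sub, norm_neg, hhalf] at h0
    refine le_trans ?_ h0
    norm_num
  have h2 := hleft.trans h1
  have h3 : 0 ≤ bestProj e e' 1 x := by
    refine le_csInf ⟨_, ∅, Nat.zero_le _, rfl⟩ ?_
    rintro r ⟨B, _, rfl⟩
    exact norm_nonneg _
  have h4 : 0 < C := by
    by_contra hneg
    push Not at hneg
    have := mul_nonpos_of_nonpos_of_nonneg hneg h3
    linarith
  have h5 := mul_le_mul_of_nonneg_left hright h4.le
  linarith

end Space

/-- **A 1-semi-greedy Markushevich basis that is not 1-almost-greedy.**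

For `𝕜 = ℝ` or `ℂ` there are a Banach space `X` over `𝕜` isomorphic to `c₀` and a normalized
Markushevich basis of `X` (with normalized biorthogonal functionals), which corresponds to the
unit vector basis of `c₀` under the isomorphism, that is `1`-semi-greedy but not
`1`-almost-greedy; it is not even `C`-almost-greedy for any `C < 13/12`. -/
theorem result (𝕜 : Type) [RCLike 𝕜] :
    ∃ (X : Type) (_ : NormedAddCommGroup X) (_ : NormedSpace 𝕜 X) (e : ℕ → X)
      (e' : ℕ → X →L[𝕜] 𝕜) (T : X ≃L[𝕜] C₀(ℕ, 𝕜)),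
      CompleteSpace X ∧ IsMarkushevichBasis e e' ∧
      (∀ n, ‖e n‖ = 1 ∧ ‖e' n‖ = 1) ∧
      (∀ n k, T (e n) k = if k = n then 1 else 0) ∧
      SemiGreedy 1 e e' ∧ (∀ C < 13 / 12, ¬ AlmostGreedy C e e') :=
  ⟨X 𝕜, inferInstance, inferInstance, e, e', T, inferInstance, isMarkushevichBasis,
    fun n => ⟨norm_e n, norm_e' n⟩, fun _ _ => rfl, semiGreedy, not_almostGreedy⟩

end Pool.Agent.Results.MP_b7f2f1_an.SemiNotAlmost
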